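import Pool.Agent.H.MP_ad013a_pr.h63.Flat
import Pool.Agent.H.MP_ad013a_pr.h63r.Q3.D0

namespace Pool.Agent.ad013a.R3

/-- choice of a leaf -/
noncomputable def A0_0 (i : Nat) : Nat :=
 (Bool.rec (motive := fun _ => Nat)
 (Bool.rec (motive := fun _ => Nat)
  (Bool.rec (motive := fun _ => Nat)
   (Bool.rec (motive := fun _ => Nat)
    L0
    L1
    (Nat.ble 128 i))
   (Bool.rec (motive := fun _ => Nat)
    L2
    L3
    (Nat.ble 384 i))
   (Nat.ble 256 i))
  (Bool.rec (motive := fun _ => Nat)
   (Bool.rec (motive := fun _ => Nat)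
    L4
    L5
    (Nat.ble 640 i))
   (Bool.rec (motive := fun _ => Nat)
    L6
    L7
    (Nat.ble 896 i))
   (Nat.ble 768 i))
  (Nat.ble 512 i))
 (Bool.rec (motive := fun _ => Nat)
  (Bool.rec (motive := fun _ => Nat)
   (Bool.rec (motive := fun _ => Nat)
    L8
    L9
    (Nat.ble 1152 i))
   (Bool.rec (motive := fun _ => Nat)
    L10
    L11
    (Nat.ble 1408 i))
   (Nat.ble 1280 i))
  (Bool.rec (motive := fun _ => Nat)
   (Bool.rec (motive := fun _ => Nat)
    L12
    L13
    (Nat.ble 1664 i))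
   (Bool.rec (motive := fun _ => Nat)
    L14
    L15
    (Nat.ble 1920 i))
   (Nat.ble 1792 i))
  (Nat.ble 1536 i))
 (Nat.ble 1024 i))

/-- choice of a leaf -/
noncomputable def A0_1 (i : Nat) : Nat :=
 (Bool.rec (motive := fun _ => Nat)
 (Bool.rec (motive := fun _ => Nat)
  (Bool.rec (motive := fun _ => Nat)
   (Bool.rec (motive := fun _ => Nat)
    L16
    L17
    (Nat.ble 2176 i))
   (Bool.rec (motive := fun _ => Nat)
    L18
    L19
    (Nat.ble 2432 i))
   (Nat.ble 2304 i))
  (Bool.rec (motive := fun _ => Nat)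
   (Bool.rec (motive := fun _ => Nat)
    L20
    L21
    (Nat.ble 2688 i))
   (Bool.rec (motive := fun _ => Nat)
    L22
    L23
    (Nat.ble 2944 i))
   (Nat.ble 2816 i))
  (Nat.ble 2560 i))
 (Bool.rec (motive := fun _ => Nat)
  (Bool.rec (motive := fun _ => Nat)
   (Bool.rec (motive := fun _ => Nat)
    L24
    L25
    (Nat.ble 3200 i))
   (Bool.rec (motive := fun _ => Nat)
    L26
    L27
    (Nat.ble 3456 i))
   (Nat.ble 3328 i))
  (Bool.rec (motive := fun _ => Nat)
   (Bool.rec (motive := fun _ => Nat)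
    L28
    L29
    (Nat.ble 3712 i))
   (Bool.rec (motive := fun _ => Nat)
    L30
    L31
    (Nat.ble 3968 i))
   (Nat.ble 3840 i))
  (Nat.ble 3584 i))
 (Nat.ble 3072 i))

/-- choice of a leaf -/
noncomputable def A0_2 (i : Nat) : Nat :=
 (Bool.rec (motive := fun _ => Nat)
 (Bool.rec (motive := fun _ => Nat)
  (Bool.rec (motive := fun _ => Nat)
   (Bool.rec (motive := fun _ => Nat)
    L32
    L33
    (Nat.ble 4224 i))
   (Bool.rec (motive := fun _ => Nat)
    L34
    L35
    (Nat.ble 4480 i))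
   (Nat.ble 4352 i))
  (Bool.rec (motive := fun _ => Nat)
   (Bool.rec (motive := fun _ => Nat)
    L36
    L37
    (Nat.ble 4736 i))
   (Bool.rec (motive := fun _ => Nat)
    L38
    L39
    (Nat.ble 4992 i))
   (Nat.ble 4864 i))
  (Nat.ble 4608 i))
 (Bool.rec (motive := fun _ => Nat)
  (Bool.rec (motive := fun _ => Nat)
   (Bool.rec (motive := fun _ => Nat)
    L40
    L41
    (Nat.ble 5248 i))
   (Bool.rec (motive := fun _ => Nat)
    L42
    L43
    (Nat.ble 5504 i))
   (Nat.ble 5376 i))
  (Bool.rec (motive := fun _ => Nat)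
   (Bool.rec (motive := fun _ => Nat)
    L44
    L45
    (Nat.ble 5760 i))
   (Bool.rec (motive := fun _ => Nat)
    L46
    L47
    (Nat.ble 6016 i))
   (Nat.ble 5888 i))
  (Nat.ble 5632 i))
 (Nat.ble 5120 i))

/-- choice of a leaf -/
noncomputable def A0_3 (i : Nat) : Nat :=
 (Bool.rec (motive := fun _ => Nat)
 (Bool.rec (motive := fun _ => Nat)
  (Bool.rec (motive := fun _ => Nat)
   (Bool.rec (motive := fun _ => Nat)
    L48
    L49
    (Nat.ble 6272 i))
   (Bool.rec (motive := fun _ => Nat)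
    L50
    L51
    (Nat.ble 6528 i))
   (Nat.ble 6400 i))
  (Bool.rec (motive := fun _ => Nat)
   (Bool.rec (motive := fun _ => Nat)
    L52
    L53
    (Nat.ble 6784 i))
   (Bool.rec (motive := fun _ => Nat)
    L54
    L55
    (Nat.ble 7040 i))
   (Nat.ble 6912 i))
  (Nat.ble 6656 i))
 (Bool.rec (motive := fun _ => Nat)
  (Bool.rec (motive := fun _ => Nat)
   (Bool.rec (motive := fun _ => Nat)
    L56
    L57
    (Nat.ble 7296 i))
   (Bool.rec (motive := fun _ => Nat)
    L58
    L59
    (Nat.ble 7552 i))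
   (Nat.ble 7424 i))
  (Bool.rec (motive := fun _ => Nat)
   (Bool.rec (motive := fun _ => Nat)
    L60
    L61
    (Nat.ble 7808 i))
   (Bool.rec (motive := fun _ => Nat)
    L62
    L63
    (Nat.ble 8064 i))
   (Nat.ble 7936 i))
  (Nat.ble 7680 i))
 (Nat.ble 7168 i))

/-- choice of a leaf -/
noncomputable def A0_4 (i : Nat) : Nat :=
 (Bool.rec (motive := fun _ => Nat)
 (Bool.rec (motive := fun _ => Nat)
  (Bool.rec (motive := fun _ => Nat)
   (Bool.rec (motive := fun _ => Nat)
    L64
    L65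
    (Nat.ble 8320 i))
   (Bool.rec (motive := fun _ => Nat)
    L66
    L67
    (Nat.ble 8576 i))
   (Nat.ble 8448 i))
  (Bool.rec (motive := fun _ => Nat)
   (Bool.rec (motive := fun _ => Nat)
    L68
    L69
    (Nat.ble 8832 i))
   (Bool.rec (motive := fun _ => Nat)
    L70
    L71
    (Nat.ble 9088 i))
   (Nat.ble 8960 i))
  (Nat.ble 8704 i))
 (Bool.rec (motive := fun _ => Nat)
  (Bool.rec (motive := fun _ => Nat)
   (Bool.rec (motive := fun _ => Nat)
    L72
    L73
    (Nat.ble 9344 i))
   (Bool.rec (motive := fun _ => Nat)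
    L74
    L75
    (Nat.ble 9600 i))
   (Nat.ble 9472 i))
  (Bool.rec (motive := fun _ => Nat)
   (Bool.rec (motive := fun _ => Nat)
    L76
    L77
    (Nat.ble 9856 i))
   (Bool.rec (motive := fun _ => Nat)
    L78
    L79
    (Nat.ble 10112 i))
   (Nat.ble 9984 i))
  (Nat.ble 9728 i))
 (Nat.ble 9216 i))

/-- choice of a leaf -/
noncomputable def A0_5 (i : Nat) : Nat :=
 (Bool.rec (motive := fun _ => Nat)
 (Bool.rec (motive := fun _ => Nat)
  (Bool.rec (motive := fun _ => Nat)
   (Bool.rec (motive := fun _ => Nat)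
    L80
    L81
    (Nat.ble 10368 i))
   (Bool.rec (motive := fun _ => Nat)
    L82
    L83
    (Nat.ble 10624 i))
   (Nat.ble 10496 i))
  (Bool.rec (motive := fun _ => Nat)
   (Bool.rec (motive := fun _ => Nat)
    L84
    L85
    (Nat.ble 10880 i))
   (Bool.rec (motive := fun _ => Nat)
    L86
    L87
    (Nat.ble 11136 i))
   (Nat.ble 11008 i))
  (Nat.ble 10752 i))
 (Bool.rec (motive := fun _ => Nat)
  (Bool.rec (motive := fun _ => Nat)
   (Bool.rec (motive := fun _ => Nat)
    L88
    L89
    (Nat.ble 11392 i))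
   (Bool.rec (motive := fun _ => Nat)
    L90
    L91
    (Nat.ble 11648 i))
   (Nat.ble 11520 i))
  (Bool.rec (motive := fun _ => Nat)
   (Bool.rec (motive := fun _ => Nat)
    L92
    L93
    (Nat.ble 11904 i))
   (Bool.rec (motive := fun _ => Nat)
    L94
    L95
    (Nat.ble 12160 i))
   (Nat.ble 12032 i))
  (Nat.ble 11776 i))
 (Nat.ble 11264 i))

/-- choice of a leaf -/
noncomputable def A0_6 (i : Nat) : Nat :=
 (Bool.rec (motive := fun _ => Nat)
 (Bool.rec (motive := fun _ => Nat)
  (Bool.rec (motive := fun _ => Nat)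
   (Bool.rec (motive := fun _ => Nat)
    L96
    L97
    (Nat.ble 12416 i))
   (Bool.rec (motive := fun _ => Nat)
    L98
    L99
    (Nat.ble 12672 i))
   (Nat.ble 12544 i))
  (Bool.rec (motive := fun _ => Nat)
   (Bool.rec (motive := fun _ => Nat)
    L100
    L101
    (Nat.ble 12928 i))
   (Bool.rec (motive := fun _ => Nat)
    L102
    L103
    (Nat.ble 13184 i))
   (Nat.ble 13056 i))
  (Nat.ble 12800 i))
 (Bool.rec (motive := fun _ => Nat)
  (Bool.rec (motive := fun _ => Nat)
   (Bool.rec (motive := fun _ => Nat)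
    L104
    L105
    (Nat.ble 13440 i))
   (Bool.rec (motive := fun _ => Nat)
    L106
    L107
    (Nat.ble 13696 i))
   (Nat.ble 13568 i))
  (Bool.rec (motive := fun _ => Nat)
   (Bool.rec (motive := fun _ => Nat)
    L108
    L109
    (Nat.ble 13952 i))
   (Bool.rec (motive := fun _ => Nat)
    L110
    L111
    (Nat.ble 14208 i))
   (Nat.ble 14080 i))
  (Nat.ble 13824 i))
 (Nat.ble 13312 i))

/-- choice of a leaf -/
noncomputable def A0_7 (i : Nat) : Nat :=
 (Bool.rec (motive := fun _ => Nat)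
 (Bool.rec (motive := fun _ => Nat)
  (Bool.rec (motive := fun _ => Nat)
   (Bool.rec (motive := fun _ => Nat)
    L112
    L113
    (Nat.ble 14464 i))
   (Bool.rec (motive := fun _ => Nat)
    L114
    L115
    (Nat.ble 14720 i))
   (Nat.ble 14592 i))
  (Bool.rec (motive := fun _ => Nat)
   (Bool.rec (motive := fun _ => Nat)
    L116
    L117
    (Nat.ble 14976 i))
   (Bool.rec (motive := fun _ => Nat)
    L118
    L119
    (Nat.ble 15232 i))
   (Nat.ble 15104 i))
  (Nat.ble 14848 i))
 (Bool.rec (motive := fun _ => Nat)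
  (Bool.rec (motive := fun _ => Nat)
   (Bool.rec (motive := fun _ => Nat)
    L120
    L121
    (Nat.ble 15488 i))
   (Bool.rec (motive := fun _ => Nat)
    L122
    L123
    (Nat.ble 15744 i))
   (Nat.ble 15616 i))
  (Bool.rec (motive := fun _ => Nat)
   (Bool.rec (motive := fun _ => Nat)
    L124
    L125
    (Nat.ble 16000 i))
   (Bool.rec (motive := fun _ => Nat)
    L126
    L127
    (Nat.ble 16256 i))
   (Nat.ble 16128 i))
  (Nat.ble 15872 i))
 (Nat.ble 15360 i))

/-- choice of a leaf -/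
noncomputable def A0_8 (i : Nat) : Nat :=
 (Bool.rec (motive := fun _ => Nat)
 (Bool.rec (motive := fun _ => Nat)
  (Bool.rec (motive := fun _ => Nat)
   (Bool.rec (motive := fun _ => Nat)
    L128
    L129
    (Nat.ble 16512 i))
   (Bool.rec (motive := fun _ => Nat)
    L130
    L131
    (Nat.ble 16768 i))
   (Nat.ble 16640 i))
  (Bool.rec (motive := fun _ => Nat)
   (Bool.rec (motive := fun _ => Nat)
    L132
    L133
    (Nat.ble 17024 i))
   (Bool.rec (motive := fun _ => Nat)
    L134
    L135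
    (Nat.ble 17280 i))
   (Nat.ble 17152 i))
  (Nat.ble 16896 i))
 (Bool.rec (motive := fun _ => Nat)
  (Bool.rec (motive := fun _ => Nat)
   (Bool.rec (motive := fun _ => Nat)
    L136
    L137
    (Nat.ble 17536 i))
   (Bool.rec (motive := fun _ => Nat)
    L138
    L139
    (Nat.ble 17792 i))
   (Nat.ble 17664 i))
  (Bool.rec (motive := fun _ => Nat)
   (Bool.rec (motive := fun _ => Nat)
    L140
    L141
    (Nat.ble 18048 i))
   (Bool.rec (motive := fun _ => Nat)
    L142
    L143
    (Nat.ble 18304 i))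
   (Nat.ble 18176 i))
  (Nat.ble 17920 i))
 (Nat.ble 17408 i))

/-- choice of a leaf -/
noncomputable def A0_9 (i : Nat) : Nat :=
 (Bool.rec (motive := fun _ => Nat)
 (Bool.rec (motive := fun _ => Nat)
  (Bool.rec (motive := fun _ => Nat)
   (Bool.rec (motive := fun _ => Nat)
    L144
    L145
    (Nat.ble 18560 i))
   (Bool.rec (motive := fun _ => Nat)
    L146
    L147
    (Nat.ble 18816 i))
   (Nat.ble 18688 i))
  (Bool.rec (motive := fun _ => Nat)
   (Bool.rec (motive := fun _ => Nat)
    L148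
    L149
    (Nat.ble 19072 i))
   (Bool.rec (motive := fun _ => Nat)
    L150
    L151
    (Nat.ble 19328 i))
   (Nat.ble 19200 i))
  (Nat.ble 18944 i))
 (Bool.rec (motive := fun _ => Nat)
  (Bool.rec (motive := fun _ => Nat)
   (Bool.rec (motive := fun _ => Nat)
    L152
    L153
    (Nat.ble 19584 i))
   (Bool.rec (motive := fun _ => Nat)
    L154
    L155
    (Nat.ble 19840 i))
   (Nat.ble 19712 i))
  (Bool.rec (motive := fun _ => Nat)
   (Bool.rec (motive := fun _ => Nat)
    L156
    L157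
    (Nat.ble 20096 i))
   (Bool.rec (motive := fun _ => Nat)
    L158
    L159
    (Nat.ble 20352 i))
   (Nat.ble 20224 i))
  (Nat.ble 19968 i))
 (Nat.ble 19456 i))

/-- choice of a leaf -/
noncomputable def A0_10 (i : Nat) : Nat :=
 (Bool.rec (motive := fun _ => Nat)
 (Bool.rec (motive := fun _ => Nat)
  (Bool.rec (motive := fun _ => Nat)
   (Bool.rec (motive := fun _ => Nat)
    L160
    L161
    (Nat.ble 20608 i))
   (Bool.rec (motive := fun _ => Nat)
    L162
    L163
    (Nat.ble 20864 i))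
   (Nat.ble 20736 i))
  (Bool.rec (motive := fun _ => Nat)
   (Bool.rec (motive := fun _ => Nat)
    L164
    L165
    (Nat.ble 21120 i))
   (Bool.rec (motive := fun _ => Nat)
    L166
    L167
    (Nat.ble 21376 i))
   (Nat.ble 21248 i))
  (Nat.ble 20992 i))
 (Bool.rec (motive := fun _ => Nat)
  (Bool.rec (motive := fun _ => Nat)
   (Bool.rec (motive := fun _ => Nat)
    L168
    L169
    (Nat.ble 21632 i))
   (Bool.rec (motive := fun _ => Nat)
    L170
    L171
    (Nat.ble 21888 i))
   (Nat.ble 21760 i))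
  (Bool.rec (motive := fun _ => Nat)
   (Bool.rec (motive := fun _ => Nat)
    L172
    L173
    (Nat.ble 22144 i))
   (Bool.rec (motive := fun _ => Nat)
    L174
    L175
    (Nat.ble 22400 i))
   (Nat.ble 22272 i))
  (Nat.ble 22016 i))
 (Nat.ble 21504 i))

/-- choice of a leaf -/
noncomputable def A0_11 (i : Nat) : Nat :=
 (Bool.rec (motive := fun _ => Nat)
 (Bool.rec (motive := fun _ => Nat)
  (Bool.rec (motive := fun _ => Nat)
   (Bool.rec (motive := fun _ => Nat)
    L176
    L177
    (Nat.ble 22656 i))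
   (Bool.rec (motive := fun _ => Nat)
    L178
    L179
    (Nat.ble 22912 i))
   (Nat.ble 22784 i))
  (Bool.rec (motive := fun _ => Nat)
   (Bool.rec (motive := fun _ => Nat)
    L180
    L181
    (Nat.ble 23168 i))
   (Bool.rec (motive := fun _ => Nat)
    L182
    L183
    (Nat.ble 23424 i))
   (Nat.ble 23296 i))
  (Nat.ble 23040 i))
 (Bool.rec (motive := fun _ => Nat)
  (Bool.rec (motive := fun _ => Nat)
   (Bool.rec (motive := fun _ => Nat)
    L184
    L185
    (Nat.ble 23680 i))
   (Bool.rec (motive := fun _ => Nat)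
    L186
    L187
    (Nat.ble 23936 i))
   (Nat.ble 23808 i))
  (Bool.rec (motive := fun _ => Nat)
   (Bool.rec (motive := fun _ => Nat)
    L188
    L189
    (Nat.ble 24192 i))
   (Bool.rec (motive := fun _ => Nat)
    L190
    L191
    (Nat.ble 24448 i))
   (Nat.ble 24320 i))
  (Nat.ble 24064 i))
 (Nat.ble 23552 i))

/-- choice of a leaf -/
noncomputable def A0_12 (i : Nat) : Nat :=
 (Bool.rec (motive := fun _ => Nat)
 (Bool.rec (motive := fun _ => Nat)
  (Bool.rec (motive := fun _ => Nat)
   (Bool.rec (motive := fun _ => Nat)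
    L192
    L193
    (Nat.ble 24704 i))
   (Bool.rec (motive := fun _ => Nat)
    L194
    L195
    (Nat.ble 24960 i))
   (Nat.ble 24832 i))
  (Bool.rec (motive := fun _ => Nat)
   (Bool.rec (motive := fun _ => Nat)
    L196
    L197
    (Nat.ble 25216 i))
   (Bool.rec (motive := fun _ => Nat)
    L198
    L199
    (Nat.ble 25472 i))
   (Nat.ble 25344 i))
  (Nat.ble 25088 i))
 (Bool.rec (motive := fun _ => Nat)
  (Bool.rec (motive := fun _ => Nat)
   (Bool.rec (motive := fun _ => Nat)
    L200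
    L201
    (Nat.ble 25728 i))
   (Bool.rec (motive := fun _ => Nat)
    L202
    L203
    (Nat.ble 25984 i))
   (Nat.ble 25856 i))
  (Bool.rec (motive := fun _ => Nat)
   (Bool.rec (motive := fun _ => Nat)
    L204
    L205
    (Nat.ble 26240 i))
   (Bool.rec (motive := fun _ => Nat)
    L206
    L207
    (Nat.ble 26496 i))
   (Nat.ble 26368 i))
  (Nat.ble 26112 i))
 (Nat.ble 25600 i))

/-- choice of a leaf -/
noncomputable def A0_13 (i : Nat) : Nat :=
 (Bool.rec (motive := fun _ => Nat)
 (Bool.rec (motive := fun _ => Nat)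
  (Bool.rec (motive := fun _ => Nat)
   (Bool.rec (motive := fun _ => Nat)
    L208
    L209
    (Nat.ble 26752 i))
   (Bool.rec (motive := fun _ => Nat)
    L210
    L211
    (Nat.ble 27008 i))
   (Nat.ble 26880 i))
  (Bool.rec (motive := fun _ => Nat)
   (Bool.rec (motive := fun _ => Nat)
    L212
    L213
    (Nat.ble 27264 i))
   (Bool.rec (motive := fun _ => Nat)
    L214
    L215
    (Nat.ble 27520 i))
   (Nat.ble 27392 i))
  (Nat.ble 27136 i))
 (Bool.rec (motive := fun _ => Nat)
  (Bool.rec (motive := fun _ => Nat)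
   (Bool.rec (motive := fun _ => Nat)
    L216
    L217
    (Nat.ble 27776 i))
   (Bool.rec (motive := fun _ => Nat)
    L218
    L219
    (Nat.ble 28032 i))
   (Nat.ble 27904 i))
  (Bool.rec (motive := fun _ => Nat)
   (Bool.rec (motive := fun _ => Nat)
    L220
    L221
    (Nat.ble 28288 i))
   (Bool.rec (motive := fun _ => Nat)
    L222
    L223
    (Nat.ble 28544 i))
   (Nat.ble 28416 i))
  (Nat.ble 28160 i))
 (Nat.ble 27648 i))

/-- choice of a leaf -/
noncomputable def A0_14 (i : Nat) : Nat :=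
 (Bool.rec (motive := fun _ => Nat)
 (Bool.rec (motive := fun _ => Nat)
  (Bool.rec (motive := fun _ => Nat)
   (Bool.rec (motive := fun _ => Nat)
    L224
    L225
    (Nat.ble 28800 i))
   (Bool.rec (motive := fun _ => Nat)
    L226
    L227
    (Nat.ble 29056 i))
   (Nat.ble 28928 i))
  (Bool.rec (motive := fun _ => Nat)
   (Bool.rec (motive := fun _ => Nat)
    L228
    L229
    (Nat.ble 29312 i))
   (Bool.rec (motive := fun _ => Nat)
    L230
    L231
    (Nat.ble 29568 i))
   (Nat.ble 29440 i))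
  (Nat.ble 29184 i))
 (Bool.rec (motive := fun _ => Nat)
  (Bool.rec (motive := fun _ => Nat)
   (Bool.rec (motive := fun _ => Nat)
    L232
    L233
    (Nat.ble 29824 i))
   (Bool.rec (motive := fun _ => Nat)
    L234
    L235
    (Nat.ble 30080 i))
   (Nat.ble 29952 i))
  (Bool.rec (motive := fun _ => Nat)
   (Bool.rec (motive := fun _ => Nat)
    L236
    L237
    (Nat.ble 30336 i))
   (Bool.rec (motive := fun _ => Nat)
    L238
    L239
    (Nat.ble 30592 i))
   (Nat.ble 30464 i))
  (Nat.ble 30208 i))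
 (Nat.ble 29696 i))

/-- choice of a leaf -/
noncomputable def A0_15 (i : Nat) : Nat :=
 (Bool.rec (motive := fun _ => Nat)
 (Bool.rec (motive := fun _ => Nat)
  (Bool.rec (motive := fun _ => Nat)
   (Bool.rec (motive := fun _ => Nat)
    L240
    L241
    (Nat.ble 30848 i))
   (Bool.rec (motive := fun _ => Nat)
    L242
    L243
    (Nat.ble 31104 i))
   (Nat.ble 30976 i))
  (Bool.rec (motive := fun _ => Nat)
   (Bool.rec (motive := fun _ => Nat)
    L244
    L245
    (Nat.ble 31360 i))
   (Bool.rec (motive := fun _ => Nat)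
    L246
    L247
    (Nat.ble 31616 i))
   (Nat.ble 31488 i))
  (Nat.ble 31232 i))
 (Bool.rec (motive := fun _ => Nat)
  (Bool.rec (motive := fun _ => Nat)
   (Bool.rec (motive := fun _ => Nat)
    L248
    L249
    (Nat.ble 31872 i))
   (Bool.rec (motive := fun _ => Nat)
    L250
    L251
    (Nat.ble 32128 i))
   (Nat.ble 32000 i))
  (Bool.rec (motive := fun _ => Nat)
   (Bool.rec (motive := fun _ => Nat)
    L252
    L253
    (Nat.ble 32384 i))
   (Bool.rec (motive := fun _ => Nat)
    L254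
    L255
    (Nat.ble 32640 i))
   (Nat.ble 32512 i))
  (Nat.ble 32256 i))
 (Nat.ble 31744 i))

/-- choice of a leaf -/
noncomputable def A0_16 (i : Nat) : Nat :=
 (Bool.rec (motive := fun _ => Nat)
 (Bool.rec (motive := fun _ => Nat)
  (Bool.rec (motive := fun _ => Nat)
   (Bool.rec (motive := fun _ => Nat)
    L256
    L257
    (Nat.ble 32896 i))
   (Bool.rec (motive := fun _ => Nat)
    L258
    L259
    (Nat.ble 33152 i))
   (Nat.ble 33024 i))
  (Bool.rec (motive := fun _ => Nat)
   (Bool.rec (motive := fun _ => Nat)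
    L260
    L261
    (Nat.ble 33408 i))
   (Bool.rec (motive := fun _ => Nat)
    L262
    L263
    (Nat.ble 33664 i))
   (Nat.ble 33536 i))
  (Nat.ble 33280 i))
 (Bool.rec (motive := fun _ => Nat)
  (Bool.rec (motive := fun _ => Nat)
   (Bool.rec (motive := fun _ => Nat)
    L264
    L265
    (Nat.ble 33920 i))
   (Bool.rec (motive := fun _ => Nat)
    L266
    L267
    (Nat.ble 34176 i))
   (Nat.ble 34048 i))
  (Bool.rec (motive := fun _ => Nat)
   (Bool.rec (motive := fun _ => Nat)
    L268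
    L269
    (Nat.ble 34432 i))
   (Bool.rec (motive := fun _ => Nat)
    L270
    L271
    (Nat.ble 34688 i))
   (Nat.ble 34560 i))
  (Nat.ble 34304 i))
 (Nat.ble 33792 i))

/-- choice of a leaf -/
noncomputable def A0_17 (i : Nat) : Nat :=
 (Bool.rec (motive := fun _ => Nat)
 (Bool.rec (motive := fun _ => Nat)
  (Bool.rec (motive := fun _ => Nat)
   (Bool.rec (motive := fun _ => Nat)
    L272
    L273
    (Nat.ble 34944 i))
   (Bool.rec (motive := fun _ => Nat)
    L274
    L275
    (Nat.ble 35200 i))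
   (Nat.ble 35072 i))
  (Bool.rec (motive := fun _ => Nat)
   (Bool.rec (motive := fun _ => Nat)
    L276
    L277
    (Nat.ble 35456 i))
   (Bool.rec (motive := fun _ => Nat)
    L278
    L279
    (Nat.ble 35712 i))
   (Nat.ble 35584 i))
  (Nat.ble 35328 i))
 (Bool.rec (motive := fun _ => Nat)
  (Bool.rec (motive := fun _ => Nat)
   (Bool.rec (motive := fun _ => Nat)
    L280
    L281
    (Nat.ble 35968 i))
   (Bool.rec (motive := fun _ => Nat)
    L282
    L283
    (Nat.ble 36224 i))
   (Nat.ble 36096 i))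
  (Bool.rec (motive := fun _ => Nat)
   (Bool.rec (motive := fun _ => Nat)
    L284
    L285
    (Nat.ble 36480 i))
   (Bool.rec (motive := fun _ => Nat)
    L286
    L287
    (Nat.ble 36736 i))
   (Nat.ble 36608 i))
  (Nat.ble 36352 i))
 (Nat.ble 35840 i))

/-- choice of a leaf -/
noncomputable def A0_18 (i : Nat) : Nat :=
 (Bool.rec (motive := fun _ => Nat)
 (Bool.rec (motive := fun _ => Nat)
  (Bool.rec (motive := fun _ => Nat)
   (Bool.rec (motive := fun _ => Nat)
    L288
    L289
    (Nat.ble 36992 i))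
   (Bool.rec (motive := fun _ => Nat)
    L290
    L291
    (Nat.ble 37248 i))
   (Nat.ble 37120 i))
  (Bool.rec (motive := fun _ => Nat)
   (Bool.rec (motive := fun _ => Nat)
    L292
    L293
    (Nat.ble 37504 i))
   (Bool.rec (motive := fun _ => Nat)
    L294
    L295
    (Nat.ble 37760 i))
   (Nat.ble 37632 i))
  (Nat.ble 37376 i))
 (Bool.rec (motive := fun _ => Nat)
  (Bool.rec (motive := fun _ => Nat)
   (Bool.rec (motive := fun _ => Nat)
    L296
    L297
    (Nat.ble 38016 i))
   (Bool.rec (motive := fun _ => Nat)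
    L298
    L299
    (Nat.ble 38272 i))
   (Nat.ble 38144 i))
  (Bool.rec (motive := fun _ => Nat)
   (Bool.rec (motive := fun _ => Nat)
    L300
    L301
    (Nat.ble 38528 i))
   (Bool.rec (motive := fun _ => Nat)
    L302
    L303
    (Nat.ble 38784 i))
   (Nat.ble 38656 i))
  (Nat.ble 38400 i))
 (Nat.ble 37888 i))

/-- choice of a leaf -/
noncomputable def A0_19 (i : Nat) : Nat :=
 (Bool.rec (motive := fun _ => Nat)
 (Bool.rec (motive := fun _ => Nat)
  (Bool.rec (motive := fun _ => Nat)
   (Bool.rec (motive := fun _ => Nat)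
    L304
    L305
    (Nat.ble 39040 i))
   (Bool.rec (motive := fun _ => Nat)
    L306
    L307
    (Nat.ble 39296 i))
   (Nat.ble 39168 i))
  (Bool.rec (motive := fun _ => Nat)
   (Bool.rec (motive := fun _ => Nat)
    L308
    L309
    (Nat.ble 39552 i))
   (Bool.rec (motive := fun _ => Nat)
    L310
    L311
    (Nat.ble 39808 i))
   (Nat.ble 39680 i))
  (Nat.ble 39424 i))
 (Bool.rec (motive := fun _ => Nat)
  (Bool.rec (motive := fun _ => Nat)
   (Bool.rec (motive := fun _ => Nat)
    L312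
    L313
    (Nat.ble 40064 i))
   (Bool.rec (motive := fun _ => Nat)
    L314
    L315
    (Nat.ble 40320 i))
   (Nat.ble 40192 i))
  (Bool.rec (motive := fun _ => Nat)
   (Bool.rec (motive := fun _ => Nat)
    L316
    L317
    (Nat.ble 40576 i))
   (Bool.rec (motive := fun _ => Nat)
    L318
    L319
    (Nat.ble 40832 i))
   (Nat.ble 40704 i))
  (Nat.ble 40448 i))
 (Nat.ble 39936 i))

/-- choice of a leaf -/
noncomputable def A0_20 (i : Nat) : Nat :=
 (Bool.rec (motive := fun _ => Nat)
 (Bool.rec (motive := fun _ => Nat)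
  (Bool.rec (motive := fun _ => Nat)
   (Bool.rec (motive := fun _ => Nat)
    L320
    L321
    (Nat.ble 41088 i))
   (Bool.rec (motive := fun _ => Nat)
    L322
    L323
    (Nat.ble 41344 i))
   (Nat.ble 41216 i))
  (Bool.rec (motive := fun _ => Nat)
   (Bool.rec (motive := fun _ => Nat)
    L324
    L325
    (Nat.ble 41600 i))
   (Bool.rec (motive := fun _ => Nat)
    L326
    L327
    (Nat.ble 41856 i))
   (Nat.ble 41728 i))
  (Nat.ble 41472 i))
 (Bool.rec (motive := fun _ => Nat)
  (Bool.rec (motive := fun _ => Nat)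
   (Bool.rec (motive := fun _ => Nat)
    L328
    L329
    (Nat.ble 42112 i))
   (Bool.rec (motive := fun _ => Nat)
    L330
    L331
    (Nat.ble 42368 i))
   (Nat.ble 42240 i))
  (Bool.rec (motive := fun _ => Nat)
   (Bool.rec (motive := fun _ => Nat)
    L332
    L333
    (Nat.ble 42624 i))
   (Bool.rec (motive := fun _ => Nat)
    L334
    L335
    (Nat.ble 42880 i))
   (Nat.ble 42752 i))
  (Nat.ble 42496 i))
 (Nat.ble 41984 i))

/-- choice of a leaf -/
noncomputable def A0_21 (i : Nat) : Nat :=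
 (Bool.rec (motive := fun _ => Nat)
 (Bool.rec (motive := fun _ => Nat)
  (Bool.rec (motive := fun _ => Nat)
   (Bool.rec (motive := fun _ => Nat)
    L336
    L337
    (Nat.ble 43136 i))
   (Bool.rec (motive := fun _ => Nat)
    L338
    L339
    (Nat.ble 43392 i))
   (Nat.ble 43264 i))
  (Bool.rec (motive := fun _ => Nat)
   (Bool.rec (motive := fun _ => Nat)
    L340
    L341
    (Nat.ble 43648 i))
   (Bool.rec (motive := fun _ => Nat)
    L342
    L343
    (Nat.ble 43904 i))
   (Nat.ble 43776 i))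
  (Nat.ble 43520 i))
 (Bool.rec (motive := fun _ => Nat)
  (Bool.rec (motive := fun _ => Nat)
   (Bool.rec (motive := fun _ => Nat)
    L344
    L345
    (Nat.ble 44160 i))
   (Bool.rec (motive := fun _ => Nat)
    L346
    L347
    (Nat.ble 44416 i))
   (Nat.ble 44288 i))
  (Bool.rec (motive := fun _ => Nat)
   (Bool.rec (motive := fun _ => Nat)
    L348
    L349
    (Nat.ble 44672 i))
   (Bool.rec (motive := fun _ => Nat)
    L350
    L351
    (Nat.ble 44928 i))
   (Nat.ble 44800 i))
  (Nat.ble 44544 i))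
 (Nat.ble 44032 i))

/-- choice of a leaf -/
noncomputable def A0_22 (i : Nat) : Nat :=
 (Bool.rec (motive := fun _ => Nat)
 (Bool.rec (motive := fun _ => Nat)
  (Bool.rec (motive := fun _ => Nat)
   (Bool.rec (motive := fun _ => Nat)
    L352
    L353
    (Nat.ble 45184 i))
   (Bool.rec (motive := fun _ => Nat)
    L354
    L355
    (Nat.ble 45440 i))
   (Nat.ble 45312 i))
  (Bool.rec (motive := fun _ => Nat)
   (Bool.rec (motive := fun _ => Nat)
    L356
    L357
    (Nat.ble 45696 i))
   (Bool.rec (motive := fun _ => Nat)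
    L358
    L359
    (Nat.ble 45952 i))
   (Nat.ble 45824 i))
  (Nat.ble 45568 i))
 (Bool.rec (motive := fun _ => Nat)
  (Bool.rec (motive := fun _ => Nat)
   (Bool.rec (motive := fun _ => Nat)
    L360
    L361
    (Nat.ble 46208 i))
   (Bool.rec (motive := fun _ => Nat)
    L362
    L363
    (Nat.ble 46464 i))
   (Nat.ble 46336 i))
  (Bool.rec (motive := fun _ => Nat)
   (Bool.rec (motive := fun _ => Nat)
    L364
    L365
    (Nat.ble 46720 i))
   (Bool.rec (motive := fun _ => Nat)
    L366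
    L367
    (Nat.ble 46976 i))
   (Nat.ble 46848 i))
  (Nat.ble 46592 i))
 (Nat.ble 46080 i))

/-- choice of a leaf -/
noncomputable def A0_23 (i : Nat) : Nat :=
 (Bool.rec (motive := fun _ => Nat)
 (Bool.rec (motive := fun _ => Nat)
  (Bool.rec (motive := fun _ => Nat)
   (Bool.rec (motive := fun _ => Nat)
    L368
    L369
    (Nat.ble 47232 i))
   (Bool.rec (motive := fun _ => Nat)
    L370
    L371
    (Nat.ble 47488 i))
   (Nat.ble 47360 i))
  (Bool.rec (motive := fun _ => Nat)
   (Bool.rec (motive := fun _ => Nat)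
    L372
    L373
    (Nat.ble 47744 i))
   (Bool.rec (motive := fun _ => Nat)
    L374
    L375
    (Nat.ble 48000 i))
   (Nat.ble 47872 i))
  (Nat.ble 47616 i))
 (Bool.rec (motive := fun _ => Nat)
  (Bool.rec (motive := fun _ => Nat)
   (Bool.rec (motive := fun _ => Nat)
    L376
    L377
    (Nat.ble 48256 i))
   (Bool.rec (motive := fun _ => Nat)
    L378
    L379
    (Nat.ble 48512 i))
   (Nat.ble 48384 i))
  (Bool.rec (motive := fun _ => Nat)
   (Bool.rec (motive := fun _ => Nat)
    L380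
    L381
    (Nat.ble 48768 i))
   (Bool.rec (motive := fun _ => Nat)
    L382
    L383
    (Nat.ble 49024 i))
   (Nat.ble 48896 i))
  (Nat.ble 48640 i))
 (Nat.ble 48128 i))

/-- choice of a leaf -/
noncomputable def A0_24 (i : Nat) : Nat :=
 (Bool.rec (motive := fun _ => Nat)
 (Bool.rec (motive := fun _ => Nat)
  (Bool.rec (motive := fun _ => Nat)
   (Bool.rec (motive := fun _ => Nat)
    L384
    L385
    (Nat.ble 49280 i))
   (Bool.rec (motive := fun _ => Nat)
    L386
    L387
    (Nat.ble 49536 i))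
   (Nat.ble 49408 i))
  (Bool.rec (motive := fun _ => Nat)
   (Bool.rec (motive := fun _ => Nat)
    L388
    L389
    (Nat.ble 49792 i))
   (Bool.rec (motive := fun _ => Nat)
    L390
    L391
    (Nat.ble 50048 i))
   (Nat.ble 49920 i))
  (Nat.ble 49664 i))
 (Bool.rec (motive := fun _ => Nat)
  (Bool.rec (motive := fun _ => Nat)
   (Bool.rec (motive := fun _ => Nat)
    L392
    L393
    (Nat.ble 50304 i))
   (Bool.rec (motive := fun _ => Nat)
    L394
    L395
    (Nat.ble 50560 i))
   (Nat.ble 50432 i))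
  (Bool.rec (motive := fun _ => Nat)
   (Bool.rec (motive := fun _ => Nat)
    L396
    L397
    (Nat.ble 50816 i))
   (Bool.rec (motive := fun _ => Nat)
    L398
    L399
    (Nat.ble 51072 i))
   (Nat.ble 50944 i))
  (Nat.ble 50688 i))
 (Nat.ble 50176 i))

/-- choice of a leaf -/
noncomputable def A0_25 (i : Nat) : Nat :=
 (Bool.rec (motive := fun _ => Nat)
 (Bool.rec (motive := fun _ => Nat)
  (Bool.rec (motive := fun _ => Nat)
   (Bool.rec (motive := fun _ => Nat)
    L400
    L401
    (Nat.ble 51328 i))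
   (Bool.rec (motive := fun _ => Nat)
    L402
    L403
    (Nat.ble 51584 i))
   (Nat.ble 51456 i))
  (Bool.rec (motive := fun _ => Nat)
   (Bool.rec (motive := fun _ => Nat)
    L404
    L405
    (Nat.ble 51840 i))
   (Bool.rec (motive := fun _ => Nat)
    L406
    L407
    (Nat.ble 52096 i))
   (Nat.ble 51968 i))
  (Nat.ble 51712 i))
 (Bool.rec (motive := fun _ => Nat)
  (Bool.rec (motive := fun _ => Nat)
   (Bool.rec (motive := fun _ => Nat)
    L408
    L409
    (Nat.ble 52352 i))
   (Bool.rec (motive := fun _ => Nat)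
    L410
    L411
    (Nat.ble 52608 i))
   (Nat.ble 52480 i))
  (Bool.rec (motive := fun _ => Nat)
   (Bool.rec (motive := fun _ => Nat)
    L412
    L413
    (Nat.ble 52864 i))
   (Bool.rec (motive := fun _ => Nat)
    L414
    L415
    (Nat.ble 53120 i))
   (Nat.ble 52992 i))
  (Nat.ble 52736 i))
 (Nat.ble 52224 i))

/-- choice of a leaf -/
noncomputable def A0_26 (i : Nat) : Nat :=
 (Bool.rec (motive := fun _ => Nat)
 (Bool.rec (motive := fun _ => Nat)
  (Bool.rec (motive := fun _ => Nat)
   (Bool.rec (motive := fun _ => Nat)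
    L416
    L417
    (Nat.ble 53376 i))
   (Bool.rec (motive := fun _ => Nat)
    L418
    L419
    (Nat.ble 53632 i))
   (Nat.ble 53504 i))
  (Bool.rec (motive := fun _ => Nat)
   (Bool.rec (motive := fun _ => Nat)
    L420
    L421
    (Nat.ble 53888 i))
   (Bool.rec (motive := fun _ => Nat)
    L422
    L423
    (Nat.ble 54144 i))
   (Nat.ble 54016 i))
  (Nat.ble 53760 i))
 (Bool.rec (motive := fun _ => Nat)
  (Bool.rec (motive := fun _ => Nat)
   (Bool.rec (motive := fun _ => Nat)
    L424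
    L425
    (Nat.ble 54400 i))
   (Bool.rec (motive := fun _ => Nat)
    L426
    L427
    (Nat.ble 54656 i))
   (Nat.ble 54528 i))
  (Bool.rec (motive := fun _ => Nat)
   (Bool.rec (motive := fun _ => Nat)
    L428
    L429
    (Nat.ble 54912 i))
   (Bool.rec (motive := fun _ => Nat)
    L430
    L431
    (Nat.ble 55168 i))
   (Nat.ble 55040 i))
  (Nat.ble 54784 i))
 (Nat.ble 54272 i))

/-- choice of a leaf -/
noncomputable def A0_27 (i : Nat) : Nat :=
 (Bool.rec (motive := fun _ => Nat)
 (Bool.rec (motive := fun _ => Nat)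
  (Bool.rec (motive := fun _ => Nat)
   (Bool.rec (motive := fun _ => Nat)
    L432
    L433
    (Nat.ble 55424 i))
   (Bool.rec (motive := fun _ => Nat)
    L434
    L435
    (Nat.ble 55680 i))
   (Nat.ble 55552 i))
  (Bool.rec (motive := fun _ => Nat)
   (Bool.rec (motive := fun _ => Nat)
    L436
    L437
    (Nat.ble 55936 i))
   (Bool.rec (motive := fun _ => Nat)
    L438
    L439
    (Nat.ble 56192 i))
   (Nat.ble 56064 i))
  (Nat.ble 55808 i))
 (Bool.rec (motive := fun _ => Nat)
  (Bool.rec (motive := fun _ => Nat)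
   (Bool.rec (motive := fun _ => Nat)
    L440
    L441
    (Nat.ble 56448 i))
   (Bool.rec (motive := fun _ => Nat)
    L442
    L443
    (Nat.ble 56704 i))
   (Nat.ble 56576 i))
  (Bool.rec (motive := fun _ => Nat)
   (Bool.rec (motive := fun _ => Nat)
    L444
    L445
    (Nat.ble 56960 i))
   (Bool.rec (motive := fun _ => Nat)
    L446
    L447
    (Nat.ble 57216 i))
   (Nat.ble 57088 i))
  (Nat.ble 56832 i))
 (Nat.ble 56320 i))

/-- choice of a leaf -/
noncomputable def A0_28 (i : Nat) : Nat :=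
 (Bool.rec (motive := fun _ => Nat)
 (Bool.rec (motive := fun _ => Nat)
  (Bool.rec (motive := fun _ => Nat)
   (Bool.rec (motive := fun _ => Nat)
    L448
    L449
    (Nat.ble 57472 i))
   (Bool.rec (motive := fun _ => Nat)
    L450
    L451
    (Nat.ble 57728 i))
   (Nat.ble 57600 i))
  (Bool.rec (motive := fun _ => Nat)
   (Bool.rec (motive := fun _ => Nat)
    L452
    L453
    (Nat.ble 57984 i))
   (Bool.rec (motive := fun _ => Nat)
    L454
    L455
    (Nat.ble 58240 i))
   (Nat.ble 58112 i))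
  (Nat.ble 57856 i))
 (Bool.rec (motive := fun _ => Nat)
  (Bool.rec (motive := fun _ => Nat)
   (Bool.rec (motive := fun _ => Nat)
    L456
    L457
    (Nat.ble 58496 i))
   (Bool.rec (motive := fun _ => Nat)
    L458
    L459
    (Nat.ble 58752 i))
   (Nat.ble 58624 i))
  (Bool.rec (motive := fun _ => Nat)
   (Bool.rec (motive := fun _ => Nat)
    L460
    L461
    (Nat.ble 59008 i))
   L462
   (Nat.ble 59136 i))
  (Nat.ble 58880 i))
 (Nat.ble 58368 i))

/-- choice of a leaf -/
noncomputable def A1_0 (i : Nat) : Nat :=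
 (Bool.rec (motive := fun _ => Nat)
 (Bool.rec (motive := fun _ => Nat)
  (Bool.rec (motive := fun _ => Nat)
   (Bool.rec (motive := fun _ => Nat)
    (A0_0 i)
    (A0_1 i)
    (Nat.ble 2048 i))
   (Bool.rec (motive := fun _ => Nat)
    (A0_2 i)
    (A0_3 i)
    (Nat.ble 6144 i))
   (Nat.ble 4096 i))
  (Bool.rec (motive := fun _ => Nat)
   (Bool.rec (motive := fun _ => Nat)
    (A0_4 i)
    (A0_5 i)
    (Nat.ble 10240 i))
   (Bool.rec (motive := fun _ => Nat)
    (A0_6 i)
    (A0_7 i)
    (Nat.ble 14336 i))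
   (Nat.ble 12288 i))
  (Nat.ble 8192 i))
 (Bool.rec (motive := fun _ => Nat)
  (Bool.rec (motive := fun _ => Nat)
   (Bool.rec (motive := fun _ => Nat)
    (A0_8 i)
    (A0_9 i)
    (Nat.ble 18432 i))
   (Bool.rec (motive := fun _ => Nat)
    (A0_10 i)
    (A0_11 i)
    (Nat.ble 22528 i))
   (Nat.ble 20480 i))
  (Bool.rec (motive := fun _ => Nat)
   (Bool.rec (motive := fun _ => Nat)
    (A0_12 i)
    (A0_13 i)
    (Nat.ble 26624 i))
   (Bool.rec (motive := fun _ => Nat)
    (A0_14 i)
    (A0_15 i)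
    (Nat.ble 30720 i))
   (Nat.ble 28672 i))
  (Nat.ble 24576 i))
 (Nat.ble 16384 i))

/-- choice of a leaf -/
noncomputable def A1_1 (i : Nat) : Nat :=
 (Bool.rec (motive := fun _ => Nat)
 (Bool.rec (motive := fun _ => Nat)
  (Bool.rec (motive := fun _ => Nat)
   (Bool.rec (motive := fun _ => Nat)
    (A0_16 i)
    (A0_17 i)
    (Nat.ble 34816 i))
   (Bool.rec (motive := fun _ => Nat)
    (A0_18 i)
    (A0_19 i)
    (Nat.ble 38912 i))
   (Nat.ble 36864 i))
  (Bool.rec (motive := fun _ => Nat)
   (Bool.rec (motive := fun _ => Nat)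
    (A0_20 i)
    (A0_21 i)
    (Nat.ble 43008 i))
   (A0_22 i)
   (Nat.ble 45056 i))
  (Nat.ble 40960 i))
 (Bool.rec (motive := fun _ => Nat)
  (Bool.rec (motive := fun _ => Nat)
   (Bool.rec (motive := fun _ => Nat)
    (A0_23 i)
    (A0_24 i)
    (Nat.ble 49152 i))
   (A0_25 i)
   (Nat.ble 51200 i))
  (Bool.rec (motive := fun _ => Nat)
   (Bool.rec (motive := fun _ => Nat)
    (A0_26 i)
    (A0_27 i)
    (Nat.ble 55296 i))
   (A0_28 i)
   (Nat.ble 57344 i))
  (Nat.ble 53248 i))
 (Nat.ble 47104 i))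

/-- choice of a leaf -/
noncomputable def leaf (i : Nat) : Nat :=
 (Bool.rec (motive := fun _ => Nat)
 (A1_0 i)
 (A1_1 i)
 (Nat.ble 32768 i))

/-- entry number `i` -/
noncomputable def g (i : Nat) : Nat := ent (leaf i) (Nat.land i 127)

/-- the check of one entry -/
noncomputable def chk (e : Nat) : Bool := chkF false 10000 131072 53768 6781 6802 g e

end Pool.Agent.ad013a.R3
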